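import Pool.Agent.H47.MED.Stmts

/-!
# MED, row TOF: all heights at least `(1 / 3 + ε) log X`
-/

set_option autoImplicit false

namespace Pool.MED

open Finset Pool.Agent.H98.ABCR Pool.SHA

theorem tof_thm (hM : S_MDD) (hV : Pool.VIO.S_MAV) : S_TOF := by
  intro ε hε
  obtain ⟨c1, C1, κ, hc1, hC1, hκ, h1⟩ := hV
  obtain ⟨c2, C2, hc2, hC2, h2⟩ := hM ε κ hε hκ
  refine ⟨min c1 c2, C1 + C2, lt_min hc1 hc2, by linarith, ?_⟩
  intro X F hX hF
  classical
  have hpow : ∀ c : ℝ, min c1 c2 ≤ c → X ^ (2 / 3 - c) ≤ X ^ (2 / 3 - min c1 c2) := fun c hc =>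
    Real.rpow_le_rpow_of_exponent_le hX (by linarith)
  have hA : ((F.filter (fun v => κ * Real.log X ≤ hh v)).card : ℝ) ≤ C1 * X ^ (2 / 3 - c1) := by
    refine h1 X _ hX ?_
    intro v hv
    rw [Finset.mem_filter] at hv
    obtain ⟨a, b, _⟩ := hF v hv.1
    exact ⟨a, b, hv.2⟩
  have hB : ((F.filter (fun v => ¬ κ * Real.log X ≤ hh v)).card : ℝ) ≤ C2 * X ^ (2 / 3 - c2) := by
    refine h2 X _ hX ?_
    intro v hv
    rw [Finset.mem_filter] at hv
    obtain ⟨a, b, c⟩ := hF v hv.1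
    exact ⟨a, b, c, (not_le.mp hv.2).le⟩
  have hsum : (F.card : ℝ) = ((F.filter (fun v => κ * Real.log X ≤ hh v)).card : ℝ)
      + ((F.filter (fun v => ¬ κ * Real.log X ≤ hh v)).card : ℝ) := by
    rw [← Nat.cast_add, Finset.card_filter_add_card_filter_not]
  have e1 : C1 * X ^ (2 / 3 - c1) ≤ C1 * X ^ (2 / 3 - min c1 c2) :=
    mul_le_mul_of_nonneg_left (hpow c1 (min_le_left _ _)) (by linarith)
  have e2 : C2 * X ^ (2 / 3 - c2) ≤ C2 * X ^ (2 / 3 - min c1 c2) :=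
    mul_le_mul_of_nonneg_left (hpow c2 (min_le_right _ _)) (by linarith)
  rw [hsum, add_mul]
  linarith

end Pool.MED
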